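import Pool.Agent.Y262.EG.Stm

/-!
# The Liouville measure is finite and positive on open sets
-/

set_option autoImplicit false

open Set Filter Topology MeasureTheory
open scoped ContDiff

noncomputable section

namespace Pool.Agent.Y604.EG

open Pool.Agent.Y262.EG

theorem isOpen_YO {Ω : Set ℂ} (h : IsOpen Ω) : IsOpen (YO Ω) := h.preimage continuous_fst

/-- the density is bounded below and above on compact sets -/
theorem bounds {Ω : Set ℂ} {φ : ℂ → ℝ} (hφ : ContinuousOn φ Ω) {K : Set Y} (hK : IsCompact K)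
    (hKO : K ⊆ YO Ω) : ∃ C : ℝ, ∀ p ∈ K, Real.exp (-(2 * C)) ≤ Real.exp (2 * φ p.1) ∧
      Real.exp (2 * φ p.1) ≤ Real.exp (2 * C) := by
  have h1 : ContinuousOn (fun p : Y => φ p.1) K :=
    hφ.comp continuous_fst.continuousOn fun p hp => hKO hp
  obtain ⟨C, hC⟩ := hK.exists_bound_of_continuousOn h1
  refine ⟨C, fun p hp => ?_⟩
  have h2 := hC p hp
  rw [Real.norm_eq_abs, abs_le] at h2
  exact ⟨Real.exp_le_exp.2 (by linarith), Real.exp_le_exp.2 (by linarith)⟩

theorem finP : StEt → StFinP := by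
  intro hEt M P _ _ _ _ _ _ Ω φ pr q m hU hm
  have hYO : IsOpen (YO Ω) := isOpen_YO hU.opn
  have hφ : ContinuousOn φ Ω := hU.smooth.continuousOn
  obtain ⟨hinj, -, -⟩ := hEt M P Ω φ pr q hU
  choose! r hr0 hrO hri using hinj
  have hcb : ∀ p ∈ YO Ω, Metric.closedBall p (r p / 2) ⊆ YO Ω := fun p hp =>
    (Metric.closedBall_subset_ball (by linarith [hr0 p hp])).trans (hrO p hp)
  have hbb : ∀ p ∈ YO Ω, Metric.ball p (r p / 2) ⊆ Metric.ball p (r p) := fun p hp =>
    Metric.ball_subset_ball (by linarith [hr0 p hp])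
  refine ⟨?_, ?_, ?_⟩
  · -- finite
    refine ⟨?_⟩
    have hcov : (univ : Set P) ⊆ ⋃ p : YO Ω, q '' Metric.ball p.1 (r p.1 / 2) := by
      intro x _
      have hx : x ∈ q '' YO Ω := by rw [hU.surjq]; trivial
      obtain ⟨p, hp, rfl⟩ := hx
      exact mem_iUnion.2 ⟨⟨p, hp⟩, p, Metric.mem_ball_self (by linarith [hr0 p hp]), rfl⟩
    obtain ⟨t, ht⟩ := isCompact_univ.elim_finite_subcover
      (fun p : YO Ω => q '' Metric.ball p.1 (r p.1 / 2))
      (fun p => hU.opnq _ Metric.isOpen_ball ((hbb p.1 p.2).trans (hrO p.1 p.2))) hcov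
    refine (measure_mono ht).trans_lt ?_
    refine (measure_biUnion_finset_le t _).trans_lt ?_
    refine ENNReal.sum_lt_top.2 fun p _ => ?_
    rw [hm _ Metric.isOpen_ball.measurableSet ((hbb p.1 p.2).trans (hrO p.1 p.2))
      ((hri p.1 p.2).mono (hbb p.1 p.2))]
    obtain ⟨C, hC⟩ := bounds hφ (isCompact_closedBall p.1 (r p.1 / 2)) (hcb p.1 p.2)
    have h1 : ∫⁻ y in Metric.ball p.1 (r p.1 / 2), ENNReal.ofReal (Real.exp (2 * φ y.1)) ≤
        ∫⁻ _ in Metric.ball p.1 (r p.1 / 2), ENNReal.ofReal (Real.exp (2 * C)) :=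
      setLIntegral_mono' Metric.isOpen_ball.measurableSet fun y hy =>
        ENNReal.ofReal_le_ofReal (hC y (Metric.ball_subset_closedBall hy)).2
    refine h1.trans_lt ?_
    rw [setLIntegral_const]
    exact ENNReal.mul_lt_top ENNReal.ofReal_lt_top (Metric.isBounded_ball.measure_lt_top)
  · -- positive on open sets
    rintro O hO ⟨x, hx⟩
    have hx' : x ∈ q '' YO Ω := by rw [hU.surjq]; trivial
    obtain ⟨p, hp, rfl⟩ := hx'
    have hop : IsOpen (YO Ω ∩ q ⁻¹' O) := hU.contq.isOpen_inter_preimage hYO hO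
    obtain ⟨s, hs0, hs⟩ := Metric.isOpen_iff.1 (hop.inter (Metric.isOpen_ball (x := p)
      (ε := r p / 2))) p ⟨⟨hp, hx⟩, Metric.mem_ball_self (by linarith [hr0 p hp])⟩
    obtain ⟨C, hC⟩ := bounds hφ (isCompact_closedBall p (r p / 2)) (hcb p hp)
    have h1 : q '' Metric.ball p s ⊆ O := by
      rintro _ ⟨y, hy, rfl⟩
      exact (hs hy).1.2
    refine lt_of_lt_of_le ?_ (measure_mono h1)
    rw [hm _ Metric.isOpen_ball.measurableSet (fun y hy => (hs hy).1.1)
      ((hri p hp).mono fun y hy => hbb p hp (hs hy).2)]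
    have h2 : ∫⁻ _ in Metric.ball p s, ENNReal.ofReal (Real.exp (-(2 * C))) ≤
        ∫⁻ y in Metric.ball p s, ENNReal.ofReal (Real.exp (2 * φ y.1)) :=
      setLIntegral_mono' Metric.isOpen_ball.measurableSet fun y hy =>
        ENNReal.ofReal_le_ofReal (hC y (Metric.ball_subset_closedBall (hs hy).2)).1
    refine lt_of_lt_of_le ?_ h2
    rw [setLIntegral_const]
    exact ENNReal.mul_pos (by
      rw [Ne, ENNReal.ofReal_eq_zero, not_le]
      exact Real.exp_pos _) (Metric.measure_ball_pos volume p hs0).ne'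
  · -- images
    intro B hB hBO
    -- a countable cover
    obtain ⟨U, hUm, hUO, hUi, hUc⟩ : ∃ U : ℕ → Set Y, (∀ n, MeasurableSet (U n)) ∧
        (∀ n, U n ⊆ YO Ω) ∧ (∀ n, InjOn q (U n)) ∧ YO Ω ⊆ ⋃ n, U n := by
      rcases (YO Ω).eq_empty_or_nonempty with h0 | h0
      · exact ⟨fun _ => ∅, fun _ => MeasurableSet.empty, fun _ => empty_subset _,
          fun _ => injOn_empty q, by rw [h0]; exact empty_subset _⟩
      obtain ⟨t, htO, htc, ht⟩ := TopologicalSpace.countable_cover_nhdsWithin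
        (f := fun p : Y => Metric.ball p (r p)) (s := YO Ω) fun p hp =>
          mem_nhdsWithin_of_mem_nhds (Metric.ball_mem_nhds p (hr0 p hp))
      have htn : t.Nonempty := by
        obtain ⟨p, hp⟩ := h0
        obtain ⟨p', hp', -⟩ := mem_iUnion₂.1 (ht hp)
        exact ⟨p', hp'⟩
      obtain ⟨f, rfl⟩ := htc.exists_eq_range htn
      have hf : ∀ n, f n ∈ YO Ω := fun n => htO ⟨n, rfl⟩
      refine ⟨fun n => Metric.ball (f n) (r (f n)), fun n => Metric.isOpen_ball.measurableSet,
        fun n => hrO _ (hf n), fun n => hri _ (hf n), fun p hp => ?_⟩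
      obtain ⟨_, ⟨n, rfl⟩, h3⟩ := mem_iUnion₂.1 (ht hp)
      exact mem_iUnion.2 ⟨n, h3⟩
    set Bn : ℕ → Set Y := fun n => B ∩ disjointed U n with hBn
    have hBnm : ∀ n, MeasurableSet (Bn n) := fun n => hB.inter (MeasurableSet.disjointed hUm n)
    have hBnd : Pairwise (Function.onFun Disjoint Bn) := fun i j hij =>
      (disjoint_disjointed U hij).mono inter_subset_right inter_subset_right
    have hBnu : ⋃ n, Bn n = B := by
      rw [← inter_iUnion, iUnion_disjointed]
      exact inter_eq_left.2 (hBO.trans hUc)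
    have hBnO : ∀ n, Bn n ⊆ YO Ω := fun n => inter_subset_left.trans hBO
    have hBni : ∀ n, InjOn q (Bn n) := fun n =>
      (hUi n).mono (inter_subset_right.trans (disjointed_subset U n))
    have himg : q '' B = ⋃ n, q '' Bn n := by
      conv_lhs => rw [← hBnu]
      exact image_iUnion
    have hle : m (q '' B) ≤ ∫⁻ p in B, ENNReal.ofReal (Real.exp (2 * φ p.1)) := by
      have h1 : ∫⁻ p in B, ENNReal.ofReal (Real.exp (2 * φ p.1)) =
          ∑' n, ∫⁻ p in Bn n, ENNReal.ofReal (Real.exp (2 * φ p.1)) := by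
        conv_lhs => rw [← hBnu]
        exact lintegral_iUnion hBnm hBnd _
      rw [himg, h1]
      refine (measure_iUnion_le _).trans (le_of_eq ?_)
      exact tsum_congr fun n => hm _ (hBnm n) (hBnO n) (hBni n)
    refine ⟨?_, fun h0 => ?_, hle⟩
    · rw [himg]
      exact MeasurableSet.iUnion fun n =>
        (hBnm n).image_of_continuousOn_injOn (hU.contq.mono (hBnO n)) (hBni n)
    · refine le_antisymm (hle.trans (le_of_eq ?_)) zero_le
      exact setLIntegral_measure_zero _ _ h0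

end Pool.Agent.Y604.EG
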